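import Mathlib
import Pool.Agent.helper26.RRank

/-!
# Minors with sides of size two

For every field, every order `d` and every family `R` of partitions of the `d` indices, a tensor
of `R`-rank at least `2 ^ |R|` has a minor all of whose sides have size at most two and whose
`R`-rank is at least two: this is the case `l = 2` of the question, for all `d`, `R` and all
fields.

Fix `x₀` with `T x₀ ≠ 0` and put `τ x I = T (x on I, x₀ off I) / T x₀`.  If the minor on
`{x₀ α, x α}` has `R`-rank one, then `τ x` is fixed by one of the operators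
`(E P τ) I = ∏ C ∈ P, τ (I ∩ C)`.  These operators commute, and an inclusion-exclusion over
`R` expresses `τ x univ` by terms of the form `(E P σ) univ`, which have `R`-rank at most one.
-/

set_option autoImplicit false

open Finset

namespace Pool.Agent.helper26.Reserve.SizeTwoMinors

open Pool.Agent.RRank

universe u v

variable {d : ℕ} {Q : Fin d → Type u} {K : Type v} [Field K]

/-- The operator `E P`. -/
def E (P : IndexPartition d) (τ : Finset (Fin d) → K) (I : Finset (Fin d)) : K :=
  ∏ C ∈ P.parts, τ (I ∩ C)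

lemma E_comm (P P' : IndexPartition d) (τ : Finset (Fin d) → K) :
    E P (E P' τ) = E P' (E P τ) := by
  funext I
  unfold E
  rw [Finset.prod_comm]
  refine Finset.prod_congr rfl fun C _ => Finset.prod_congr rfl fun D _ => ?_
  congr 1
  rw [Finset.inter_assoc, Finset.inter_assoc, Finset.inter_comm C D]

/-- The inclusion-exclusion expression. -/
def S : List (IndexPartition d) → (Finset (Fin d) → K) → K
  | [], _ => 0
  | P :: L, τ => S L τ + (E P τ univ + (-1) * S L (E P τ))

lemma S_eq (L : List (IndexPartition d)) : ∀ τ : Finset (Fin d) → K,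
    (∃ P ∈ L, E P τ = τ) → S L τ = τ univ := by
  induction L with
  | nil => rintro τ ⟨P, hP, -⟩; simp at hP
  | cons P L ih =>
    rintro τ ⟨P', hP', h⟩
    rw [S]
    rcases List.mem_cons.1 hP' with rfl | hP''
    · rw [h]; ring
    · rw [ih τ ⟨P', hP'', h⟩, ih (E P τ) ⟨P', hP'', by rw [E_comm, h]⟩]
      ring

lemma sumOf_S {R : Set (IndexPartition d)} (hR : ∀ P ∈ R, P.parts.Nonempty)
    (L : List (IndexPartition d)) (hL : ∀ P ∈ L, P ∈ R) :
    ∀ τ : ((α : Fin d) → Q α) → Finset (Fin d) → K,
    (∀ I : Finset (Fin d), DependsOn (fun x => τ x I) (I : Set (Fin d))) →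
    SumOf R (fun x => S L (τ x)) (2 ^ L.length - 1) := by
  induction L with
  | nil =>
    intro τ _
    exact SumOf.zero
  | cons P L ih =>
    intro τ hτ
    have hE : ∀ I : Finset (Fin d), DependsOn (fun x => E P (τ x) I) (I : Set (Fin d)) := by
      intro I x y hxy
      refine Finset.prod_congr rfl fun C _ => ?_
      apply hτ (I ∩ C)
      intro α hα
      apply hxy
      rw [Finset.mem_coe] at hα ⊢
      exact Finset.mem_of_mem_inter_left hα
    have h1 := ih (fun P' hP' => hL P' (List.mem_cons_of_mem _ hP')) τ hτ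
    have h2 := (ih (fun P' hP' => hL P' (List.mem_cons_of_mem _ hP'))
      (fun x => E P (τ x)) hE).smul hR (-1)
    have h3 : RankLEOne R (fun x => E P (τ x) univ) := by
      refine rankLEOne_iff.2 ⟨P, hL P List.mem_cons_self, fun C x => τ x (univ ∩ C), ?_, ?_⟩
      · intro C _ x y hxy
        apply hτ
        intro α hα
        apply hxy
        rwa [Finset.univ_inter] at hα
      · intro x
        rfl
    have h4 := h1.add ((SumOf.one h3).add h2)
    have h5 : 2 ^ L.length - 1 + (1 + (2 ^ L.length - 1)) = 2 ^ (P :: L).length - 1 := by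
      rw [List.length_cons, pow_succ]
      have : 0 < 2 ^ L.length := by positivity
      omega
    rw [h5] at h4
    exact h4

/-- **Minors with sides of size two.**  For every field `K`, every order `d ≥ 2` and every
family `R` of partitions of the `d` indices, a tensor of `R`-rank at least `2 ^ |R|` has a
minor with all sides of size at most two and of `R`-rank at least two. -/
theorem result (K : Type v) [Field K] (d : ℕ) (hd : 2 ≤ d) (R : Set (IndexPartition d))
    (Q : Fin d → Type u) (T : ((α : Fin d) → Q α) → K)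
    (h : ((2 ^ R.ncard : ℕ) : ℕ∞) ≤ rank R T) :
    ∃ X : (α : Fin d) → Finset (Q α), (∀ α, (X α).card ≤ 2) ∧
      (2 : ℕ∞) ≤ rank R (minor T X) := by
  classical
  have hfin : Finite (IndexPartition d) := by
    apply Finite.of_injective (fun P : IndexPartition d => P.parts)
    intro P P' h
    exact Finpartition.ext h
  have hR : ∀ P ∈ R, P.parts.Nonempty := by
    intro P _
    rw [Finset.nonempty_iff_ne_empty]
    intro h0
    have h1 := P.sup_parts
    rw [h0, Finset.sup_empty] at h1
    have h2 : (⟨0, by omega⟩ : Fin d) ∈ (univ : Finset (Fin d)) := Finset.mem_univ _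
    rw [← h1] at h2
    simp at h2
  by_contra hcon
  push Not at hcon
  -- a base point
  by_cases hT : ∀ x, T x = 0
  · refine not_sumOf_of_le_rank h (r := 0) (by positivity) ?_
    have : T = fun _ => 0 := funext hT
    rw [this]
    exact SumOf.zero
  push Not at hT
  obtain ⟨x₀, hx₀⟩ := hT
  obtain ⟨mix, hmix⟩ : ∃ mix : ((α : Fin d) → Q α) → Finset (Fin d) → ((α : Fin d) → Q α),
    mix = fun x I α => if α ∈ I then x α else x₀ α := ⟨_, rfl⟩
  obtain ⟨τ, hτ⟩ : ∃ τ : ((α : Fin d) → Q α) → Finset (Fin d) → K,
    τ = fun x I => (T x₀)⁻¹ * T (mix x I) := ⟨_, rfl⟩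
  have hdep : ∀ I : Finset (Fin d), DependsOn (fun x => τ x I) (I : Set (Fin d)) := by
    intro I x y hxy
    simp only [hτ]
    congr 2
    funext α
    simp only [hmix]
    by_cases hα : α ∈ I
    · rw [if_pos hα, if_pos hα]; exact hxy α hα
    · rw [if_neg hα, if_neg hα]
  obtain ⟨L, hL⟩ : ∃ L : List (IndexPartition d), L = (Set.toFinite R).toFinset.toList :=
    ⟨_, rfl⟩
  have hLmem : ∀ P, P ∈ L ↔ P ∈ R := by
    intro P
    rw [hL, Finset.mem_toList, Set.Finite.mem_toFinset]
  have hLlen : L.length = R.ncard := by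
    rw [hL, Finset.length_toList, Set.ncard_eq_toFinset_card R]
  -- every `τ x` is fixed by one of the operators
  have hfix : ∀ x, ∃ P ∈ L, E P (τ x) = τ x := by
    intro x
    have h1 := hcon (fun α => {x₀ α, x α}) (fun α => Finset.card_le_two)
    obtain ⟨r, hr, hsum⟩ := exists_sumOf_of_rank_lt (n := 2) (by exact_mod_cast h1)
    obtain ⟨t, ht, hTt⟩ := hsum
    have hmem : ∀ I α, mix x I α ∈ ({x₀ α, x α} : Finset (Q α)) := by
      intro I α
      simp only [hmix]
      by_cases hα : α ∈ I
      · rw [if_pos hα]; simp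
      · rw [if_neg hα]; simp
    have hval : ∀ I, T (mix x I) = ∑ i, t i (fun α => ⟨mix x I α, hmem I α⟩) := by
      intro I
      exact hTt (fun α => ⟨mix x I α, hmem I α⟩)
    have hmix0 : mix x ∅ = x₀ := by
      funext α; simp [hmix]
    interval_cases r
    · exfalso
      apply hx₀
      rw [← hmix0, hval]
      simp
    · obtain ⟨P, hP, a, ha⟩ := ht 0
      refine ⟨P, (hLmem P).2 hP, ?_⟩
      have hval' : ∀ I, T (mix x I) =
          ∏ C ∈ P.parts, a C (fun α => ⟨mix x I α, hmem I α⟩) := by
        intro I
        rw [hval, Fin.sum_univ_one, ha]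
      obtain ⟨b, hb⟩ : ∃ b : Finset (Fin d) → Finset (Fin d) → K,
        b = fun C I => a C (fun α => ⟨mix x I α, hmem I α⟩) := ⟨_, rfl⟩
      have hval2 : ∀ I, T (mix x I) = ∏ C ∈ P.parts, b C I := by
        intro I; rw [hval', hb]
      -- `b C I` depends only on `I ∩ C`
      have hb1 : ∀ C I J, I ∩ C = J ∩ C → b C I = b C J := by
        intro C I J hIJ
        rw [hb]
        show a C _ = a C _
        congr 1
        funext α
        apply Subtype.ext
        show mix x I α = mix x J α
        simp only [hmix]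
        have h2 : (α : Fin d) ∈ I ↔ (α : Fin d) ∈ J := by
          have h3 : (α : Fin d) ∈ I ∩ C ↔ (α : Fin d) ∈ J ∩ C := by rw [hIJ]
          rw [Finset.mem_inter, Finset.mem_inter] at h3
          constructor
          · intro h4; exact (h3.1 ⟨h4, α.2⟩).1
          · intro h4; exact (h3.2 ⟨h4, α.2⟩).1
        by_cases hα : (α : Fin d) ∈ I
        · rw [if_pos hα, if_pos (h2.1 hα)]
        · rw [if_neg hα, if_neg (fun h5 => hα (h2.2 h5))]
      have hb0 : ∏ C ∈ P.parts, b C ∅ = T x₀ := by rw [← hval2, hmix0]
      have hbne : ∀ C ∈ P.parts, b C ∅ ≠ 0 := by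
        intro C hC h0
        apply hx₀
        rw [← hb0]
        exact Finset.prod_eq_zero hC h0
      -- the values `τ x (I ∩ C)` for `C ∈ P`
      have hτC : ∀ I, ∀ C ∈ P.parts, τ x (I ∩ C) = b C I * (b C ∅)⁻¹ := by
        intro I C hC
        simp only [hτ]
        rw [hval2, ← hb0, ← Finset.mul_prod_erase _ _ hC, ← Finset.mul_prod_erase _ _ hC]
        have h2 : ∏ D ∈ P.parts.erase C, b D (I ∩ C) = ∏ D ∈ P.parts.erase C, b D ∅ := by
          refine Finset.prod_congr rfl fun D hD => ?_
          apply hb1
          have h3 : Disjoint C D :=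
            P.disjoint hC (Finset.mem_of_mem_erase hD) (Finset.ne_of_mem_erase hD).symm
          rw [Finset.inter_assoc, Finset.disjoint_iff_inter_eq_empty.1 h3]
          simp
        rw [h2, hb1 C (I ∩ C) I (by rw [Finset.inter_assoc, Finset.inter_self])]
        have h4 : ∏ D ∈ P.parts.erase C, b D ∅ ≠ 0 :=
          Finset.prod_ne_zero_iff.2 fun D hD => hbne D (Finset.mem_of_mem_erase hD)
        have h5 := hbne C hC
        field_simp
      funext I
      unfold E
      rw [Finset.prod_congr rfl (hτC I), Finset.prod_mul_distrib, ← hval2, Finset.prod_inv_distrib,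
        hb0, mul_comm]
      simp only [hτ]
  -- conclusion
  have hTS : ∀ x, T x = T x₀ * S L (τ x) := by
    intro x
    rw [S_eq L (τ x) (hfix x)]
    simp only [hτ]
    have h1 : mix x univ = x := by funext α; simp [hmix]
    rw [h1, mul_inv_cancel_left₀ hx₀]
  have h1 := (sumOf_S hR L (fun P hP => (hLmem P).1 hP) τ hdep).smul hR (T x₀)
  have h2 : (fun x => T x₀ * S L (τ x)) = T := by funext x; exact (hTS x).symm
  rw [h2, hLlen] at h1
  refine not_sumOf_of_le_rank h ?_ h1
  have : 0 < 2 ^ R.ncard := by positivity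
  omega

end Pool.Agent.helper26.Reserve.SizeTwoMinors
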