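import Pool.Agent.helper26.UP.All

/-!
# The postcritical set of `z ^ n + c`, `n ≥ 3`, and density of hyperbolicity

`multibrot n` and `hyperbolic n` are defined in `Pool/Agent/helper16/Multibrot/Defs.lean`.
-/

set_option autoImplicit false

namespace Pool.Agent.Results.MP_af9036_an.DimensionGap

open Pool.Agent.helper16.Multibrot

/-- The postcritical set of `z ^ n + c`: the closure of the orbit of the critical value `c`. -/
def postcritical (n : ℕ) (c : ℂ) : Set ℂ := closure (Set.range fun j : ℕ => (fun w : ℂ => w ^ n + c)^[j] c)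

/-- `P` is uniformly perfect with constant `K` at all sufficiently small scales: no round annulus
`s < |y - x| < K s` about a point `x` of `P` is free of points of `P`. -/
def UniformlyPerfect (P : Set ℂ) (K : ℝ) : Prop :=
  ∃ s₀ > (0 : ℝ), ∀ x ∈ P, ∀ s : ℝ, 0 < s → s ≤ s₀ → ∃ y ∈ P, s < ‖y - x‖ ∧ ‖y - x‖ < K * s

/-- There are absolute constants `K > 1` and `κ > 0` such that for all `n ≥ 3` and all `c` in the
connectedness locus of `z ^ n + c`: either `c` is a limit of parameters with an attracting cycle, or
the postcritical set is uniformly perfect with constant `K ^ n` at all small scales and its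
Hausdorff dimension is at least `κ / n`. -/
theorem result : ∃ K κ : ℝ, 1 < K ∧ 0 < κ ∧ ∀ n : ℕ, 3 ≤ n → ∀ c ∈ multibrot n,
    c ∈ closure (hyperbolic n) ∨
      UniformlyPerfect (postcritical n c) (K ^ n) ∧ ENNReal.ofReal (κ / n) ≤ dimH (postcritical n c) := by
  obtain ⟨K, κ, hK, hκ, h⟩ := UP.DG
  refine ⟨K, κ, hK, hκ, ?_⟩
  intro n hn c hc
  by_cases hcl : c ∈ closure (hyperbolic n)
  · exact Or.inl hcl
  · right
    have h1 : postcritical n c = closure (UP.Orb n c) := by
      unfold postcritical UP.Orb
      congr 2
      funext j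
      exact UP.iter_c n c (by omega) j
    rw [h1]
    exact h n hn c hc hcl

end Pool.Agent.Results.MP_af9036_an.DimensionGap
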