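import Pool.Agent.helper27.SY.All

/-!
# Almost primes `m`, `m + 6` between consecutive cubes, II (MP_5628fe_nt)
-/

set_option autoImplicit false

namespace Pool.Agent.Results.MP_5628fe_nt.AlmostAllCubes

/-- The `m` with `n ^ 3 < m < m + 6 < (n + 1) ^ 3` such that `m` and `m + 6` have at most four prime factors each
and at most five together (with multiplicity), every prime `p ∣ m (m + 6)` satisfies `p ≥ 7` and `n < p ^ 6`, and
there is no prime strictly between `m` and `m + 6`. -/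
def Pairs (n : ℕ) : Set ℕ :=
  {m | n ^ 3 < m ∧ m + 6 < (n + 1) ^ 3 ∧
    ArithmeticFunction.cardFactors m ≤ 4 ∧ ArithmeticFunction.cardFactors (m + 6) ≤ 4 ∧
    ArithmeticFunction.cardFactors m + ArithmeticFunction.cardFactors (m + 6) ≤ 5 ∧
    (∀ p : ℕ, p.Prime → p ∣ m * (m + 6) → 7 ≤ p ∧ n < p ^ 6) ∧
    ∀ q : ℕ, m < q → q < m + 6 → ¬ q.Prime}

lemma pairs_eq (n : ℕ) : Pairs n = (Pool.Agent.SY.T 5 n : Set ℕ) := by
  ext m
  simp only [Pairs, Pool.Agent.SY.T, Set.mem_setOf_eq, Finset.coe_filter, Finset.mem_Ioo]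
  constructor
  · rintro ⟨h1, h2, h3⟩
    exact ⟨⟨h1, by omega⟩, h2, h3⟩
  · rintro ⟨⟨h1, _⟩, h2, h3⟩
    exact ⟨h1, h2, h3⟩

/-- There is `c > 0` such that for every `N ≥ 1` the set `Pairs n` has at least `c n ^ 2 / (log n) ^ 2` elements
for all `n ≤ N` with at most `c⁻¹ N ^ (99 / 100)` exceptions. -/
theorem result : ∃ c : ℝ, 0 < c ∧ ∀ N : ℕ, 1 ≤ N →
    (({n : ℕ | 1 ≤ n ∧ n ≤ N ∧ ((Pairs n).ncard : ℝ) < c * (n : ℝ) ^ 2 / Real.log n ^ 2}.ncard : ℕ) : ℝ) ≤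
      1 / c * (N : ℝ) ^ (99 / 100 : ℝ) := by
  classical
  obtain ⟨c, n₀, hc, _, h2⟩ := Pool.Agent.SY.MAIN
  have e : ∀ n : ℕ, (Pairs n).ncard = (Pool.Agent.SY.T 5 n).card := by
    intro n
    rw [pairs_eq, Set.ncard_coe_finset]
  refine ⟨c, hc, fun N hN => ?_⟩
  refine le_trans (le_of_eq ?_) (h2 N hN)
  have : {n : ℕ | 1 ≤ n ∧ n ≤ N ∧ ((Pairs n).ncard : ℝ) < c * (n : ℝ) ^ 2 / Real.log n ^ 2} =
      (((Finset.Icc 1 N).filter fun n => ((Pool.Agent.SY.T 5 n).card : ℝ) <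
        c * (n : ℝ) ^ 2 / Real.log n ^ 2 : Finset ℕ) : Set ℕ) := by
    ext n
    simp only [Set.mem_setOf_eq, Finset.coe_filter, Finset.mem_Icc, e, and_assoc]
  rw [this, Set.ncard_coe_finset]

end Pool.Agent.Results.MP_5628fe_nt.AlmostAllCubes
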